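import Mathlib

/-!
# Extraction of a short tuple whose common certificates are rare (block D5)
-/

set_option autoImplicit false

namespace Pool.Agent.AGG.T

open Classical in
theorem extract {Γ A : Type} [Fintype Γ] {w : Γ → ℝ} (hw : ∀ c, 0 ≤ w c) (S : Γ → Finset A)
    (W : Finset A) (hW : W.Nonempty) (q : ℕ)
    (h : ∑ c : Fin q → Γ, (if ∃ ξ ∈ W, ∀ j, ξ ∈ S (c j) then ∏ j, w (c j) else 0) <
      ((∑ c, w c) / 2) ^ q) :
    ∃ k < q, ∃ c : Fin k → Γ, (∀ j, 0 < w (c j)) ∧ (∃ ξ ∈ W, ∀ j, ξ ∈ S (c j)) ∧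
      ∑ c', (if ∃ ζ ∈ W, (∀ j, ζ ∈ S (c j)) ∧ ζ ∈ S c' then w c' else 0) ≤ (∑ c, w c) / 2 := by
  by_contra hcon
  push Not at hcon
  have h0 : 0 ≤ (∑ c, w c) / 2 := div_nonneg (Finset.sum_nonneg fun c _ => hw c) two_pos.le
  have key : ∀ k ≤ q, ((∑ c, w c) / 2) ^ k ≤
      ∑ c : Fin k → Γ, (if ∃ ξ ∈ W, ∀ j, ξ ∈ S (c j) then ∏ j, w (c j) else 0) := by
    intro k
    induction k with
    | zero =>
      intro _
      obtain ⟨ξ, hξ⟩ := hW
      rw [pow_zero, Fintype.sum_unique, if_pos ⟨ξ, hξ, fun j => j.elim0⟩]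
      simp
    | succ k ih =>
      intro hk
      have e := Fintype.sum_equiv (Fin.consEquiv fun _ : Fin (k + 1) => Γ)
        (fun p : Γ × (Fin k → Γ) => if ∃ ξ ∈ W, (∀ j, ξ ∈ S (p.2 j)) ∧ ξ ∈ S p.1 then
          w p.1 * ∏ j, w (p.2 j) else 0)
        (fun c : Fin (k + 1) → Γ => if ∃ ξ ∈ W, ∀ j, ξ ∈ S (c j) then ∏ j, w (c j) else 0)
        (by
          intro p
          simp only [Fin.consEquiv_apply, Fin.forall_fin_succ, Fin.prod_univ_succ, Fin.cons_zero,
            Fin.cons_succ]
          congr 1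
          apply propext
          constructor
          · rintro ⟨ξ, h1, h2, h3⟩
            exact ⟨ξ, h1, h3, h2⟩
          · rintro ⟨ξ, h1, h2, h3⟩
            exact ⟨ξ, h1, h3, h2⟩)
      rw [← e, Fintype.sum_prod_type_right, pow_succ]
      refine (mul_le_mul_of_nonneg_right (ih (by omega)) h0).trans ?_
      rw [Finset.sum_mul]
      apply Finset.sum_le_sum
      intro c _
      split_ifs with hc
      · by_cases hp : ∀ j, 0 < w (c j)
        · have h1 := hcon k (by omega) c hp hc
          have h2 : ∑ x, (if ∃ ξ ∈ W, (∀ j, ξ ∈ S (c j)) ∧ ξ ∈ S x then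
              w x * ∏ j, w (c j) else 0) = (∏ j, w (c j)) *
              ∑ c', (if ∃ ζ ∈ W, (∀ j, ζ ∈ S (c j)) ∧ ζ ∈ S c' then w c' else 0) := by
            rw [Finset.mul_sum]
            apply Finset.sum_congr rfl
            intro x _
            split_ifs <;> ring
          simp only
          rw [h2]
          exact mul_le_mul_of_nonneg_left h1.le (Finset.prod_nonneg fun j _ => hw _)
        · push Not at hp
          obtain ⟨j, hj⟩ := hp
          have h3 : w (c j) = 0 := le_antisymm hj (hw _)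
          have h4 : ∏ j, w (c j) = 0 := Finset.prod_eq_zero (Finset.mem_univ j) h3
          rw [h4, zero_mul]
          apply Finset.sum_nonneg
          intro x _
          simp only [h4, mul_zero, ite_self, le_refl]
      · rw [zero_mul]
        apply Finset.sum_nonneg
        intro x _
        split_ifs
        · exact mul_nonneg (hw _) (Finset.prod_nonneg fun j _ => hw _)
        · exact le_rfl
  exact absurd (key q le_rfl) (not_le.2 h)

end Pool.Agent.AGG.T
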